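import Pool.Agent.K4H75.OS.Main

/-!
# Optimal stopping for components on planar triangulations: the lower bound `√3 / 18`

A planar triangulation `G` with the vertices `0, …, n - 1` is given by the set `F` of its facial
triangles (`IsSphere G F`: a combinatorial triangulation of the sphere). The vertices become active
in a uniformly random order; a stopping algorithm chooses a time, and its score is the expected
number of the components of the graph induced on the active vertices at this time.

The theorem: for every `n ≥ 3` there is a fixed time `t` (about `(3 - √3)/6 n ≈ 0.2113 n`) such that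
stopping at the time `t` has a score of at least `√3 / 18 n - 1`, `√3 / 18 = 0.09622…`, on all planar
triangulations with `n` vertices. The known lower bound was `n / 12 - O(1)`, `1 / 12 = 0.0833…`,
and the known upper bound for the best constant is `27 / 256 = 0.10546…`.

Proof: if `S` is a proper subset of the vertices, the facial triangles contained in `S` are
independent in the cycle space of `G[S]`, as a nonempty set of facial triangles which contains none
or both of the two triangles at every edge contains all of them. So
`components (G[S]) ≥ |S| - e(S) + f(S)`. For a random `S` with `x n` vertices the mean of the right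
hand side is `(x - 3 x² + 2 x³) n + O(1)`, as there are `3 n - 6` edges and `2 n - 4` facial
triangles, and the maximum of `x - 3 x² + 2 x³` on `[0, 1]` is `√3 / 18`.
-/

set_option autoImplicit false

namespace Pool.Agent.Results.MP_195d30_co.EulerBound

open Pool.Agent.K4H75.OS

/-- For every `n ≥ 3` there is a time `t`, depending only on `n`, such that for all planar
triangulations with `n` vertices the algorithm which stops at the time `t` has a score of at least
`√3 / 18 n - 1`. -/
theorem result :
    (∀ n : ℕ, 3 ≤ n → ∃ t : ℕ, IsStopping (n := n) (fun _ => t) ∧
      ∀ (G : SimpleGraph (Fin n)) (F : Finset (Finset (Fin n))), IsSphere G F →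
        Real.sqrt 3 / 18 * n - 1 ≤ score G fun _ => t) ∧
    (0.0962 : ℝ) < Real.sqrt 3 / 18 := by
  have hs : Real.sqrt 3 ≤ 1.7321 := by
    rw [Real.sqrt_le_left (by norm_num)]
    norm_num
  refine ⟨fun n hn => ?_, ?_⟩
  · have hn' : (3 : ℝ) ≤ n := by exact_mod_cast hn
    rcases lt_or_ge n 20 with h | h
    · refine ⟨1, const_stopping le_rfl (by omega), fun G F hG => ?_⟩
      have h1 := fixed_time hG hn 1 (by omega)
      have h2 : (n : ℝ) ≤ 19 := by exact_mod_cast (by omega : n ≤ 19)
      refine le_trans ?_ h1
      have h3 : Real.sqrt 3 / 18 * n ≤ 1.7321 / 18 * 19 := by
        have := Real.sqrt_nonneg 3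
        gcongr
      norm_num at h3 ⊢
      linarith
    · obtain ⟨t, ht1, ht2, ht⟩ := real2 n h
      refine ⟨t, const_stopping ht1 ht2.le, fun G F hG => ?_⟩
      exact le_trans ht (fixed_time hG hn t ht2)
  · have h1 : (1.7319 : ℝ) < Real.sqrt 3 := by
      rw [Real.lt_sqrt (by norm_num)]
      norm_num
    linarith

end Pool.Agent.Results.MP_195d30_co.EulerBound
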